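import Pool.Agent.H42.Bar1

open Cardinal Pool.Agent.H42.Bar

theorem Pool.Agent.Results.MP_e8be47_lc.No.result :
    (∀ l : Cardinal.{0}, ℵ₀ < l.ord.cof → (l < sNum ∨ rNum < l.ord.cof) → ¬ Ex l) ∧
    ((𝔠 : Cardinal.{0}) = ℵ_ 2 → rNum = ℵ₁ → sNum = ℵ_ 2 → ¬ Ex ℵ₁ ∧ ¬ Ex 𝔠) := by
  refine ⟨fun l a b => b.elim (no_s a) (no_r a), fun a b c => ⟨no_s ?_ ?_, no_r ?_ ?_⟩⟩
  · rw [isRegular_aleph_one.cof_ord]; exact aleph0_lt_aleph_one
  · rw [c]; exact aleph_lt_aleph.2 one_lt_two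
  · have := (isRegular_aleph_add_one (1 : Ordinal.{0})).cof_ord
    rw [one_add_one_eq_two] at this
    rw [a, this]
    exact aleph0_lt_aleph_one.trans (aleph_lt_aleph.2 one_lt_two)
  · have := (isRegular_aleph_add_one (1 : Ordinal.{0})).cof_ord
    rw [one_add_one_eq_two] at this
    rw [a, this, b]
    exact aleph_lt_aleph.2 one_lt_two
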